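import Mathlib
import Pool.Agent.TH115.GD.Defs
import Pool.Agent.TH115.ID.Defs
import Pool.Agent.W309.TD.Stmt
import Pool.Agent.K9h33.RD.Fin

/-!
# The Tate conjecture at ALL primes for 100% of the elliptic surfaces with a section of order two over all
# finitely generated fields of characteristic different from 2

Let `R` be an integrally closed domain which is finitely generated as a ring and not a field, with
`2 ≠ 0` in `R`, and `k` its field of fractions (for example a number field and its ring of integers; each
infinite finitely generated field of characteristic different from 2 is the field of fractions of such an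
`R`). For polynomials `a`, `b` over `R` of degrees at most `r` and `2 r` let `X` be the elliptic surface over
the projective line with the generic fibre

`E : y² = x (x² + a x + b)`.

For even `r` these are all the elliptic surfaces with a section of order two and fundamental line bundle of
degree `r / 2`; for odd `r` there is a fibre of type `I₀*` at infinity. These surfaces are geometrically simply
connected, the geometric genus is `⌈r / 2⌉ - 1` for general `a`, `b`.

Let `κ` be a finite field of odd characteristic. Call a pair `(a, b)` over `κ` good (`Good`) if `b` and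
`a² - 4 b` have degree `2 r`, their product is squarefree, and for EVERY finite extension `L` of `κ` whose
degree is prime to `6 (2 r - 1) (2 r - 3)` (for example `L = κ`), EVERY constant `c ≠ 0` of `L` and the twist
`E_c : y² = x (x² + c a x + c² b)` over `L(t)` the following holds.

(i) The classes in `V₂ Sel(E_c / L'(t))` (`L'` a separable closure of `L`) which are fixed by the Galois group
come from `E_c(L(t))`: the Tate conjecture for divisors at the prime 2 (`TateAtTwo`).

(ii) Every point of `E_c(L(t))` is the sum of a point of order at most two and the double of a point; as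
`E_c(L(t))` is finitely generated, it is finite.

Let `K_r = 768 (2 r - 1) (2 r - 3)`, `r ≥ 4`.

**Theorem.** (1) For every finite field `κ` of odd characteristic with at least `4 K_r²` elements, at least the
proportion `1 / (2 K_r)` of all the pairs `(a, b)` over `κ` is good.

(2) Let `B 0`, `B 1`, ... be a sequence of nonempty finite sets of pairs `(a, b)` over `R` which is
equidistributed modulo each ideal of `R` with finite quotient (for a number field: boxes in the coordinates of
the coefficients). Then for 100 percent of the pairs in `B i`, as `i` tends to infinity, the following holds: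
for EVERY prime number `ℓ ≠ 0` in `R` there is a homomorphism from `R` onto a finite field of odd characteristic
different from `ℓ` such that the reduction of `(a, b)` is good (`GoodReductions`).

This gives the Tate conjecture for the divisors on `X` over `k` at ALL primes `ℓ` different from the
characteristic of `k`, for 100 percent of the pairs, by the following known facts, which are not formalised. Let
`φ : R → κ` be a good reduction, of characteristic different from `ℓ`. `X` has good reduction `X₀` over `κ`: the
bad fibres are of type `I₂` over the roots of `b` and `I₁` over the roots of `a² - 4 b`, and `I₀*` at infinity if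
`r` is odd, and this remains so after the reduction. By (i) and (ii) no nonzero class of `V₂ Br(X₀ ⊗ L')` is
fixed by the Galois group of `L`, and the Mordell-Weil group is finite; by the theorem of Artin, Tate and Milne
the Tate conjecture holds for `X₀` at all primes, in particular at `ℓ`, and all the Tate classes are
combinations of the classes of the fibre, the section and the components of the fibres. These classes are
reductions of divisors on `X ⊗ k'`, and the specialisation of the Tate classes is injective; so the Tate
classes of `X` over `k` are combinations of divisors on `X ⊗ k'`, and so of divisors on `X`, since they are fixed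
by the Galois group.

Since (i) and (ii) hold for all the twists by constants they hold for `E` over the quadratic extension of `L`,
up to points of finite order. So the same holds over every Galois extension of `k` whose degree is not
divisible by `4` and is prime to `3 (2 r - 1) (2 r - 3)`, and over all extensions of `k` generated by square
roots. By (1) every large prime of `R` alone proves the conjecture, at all primes `ℓ` different from its residue
characteristic, for all `(a, b)` in at least the proportion `1 / (2 K_r)` of the residue classes.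

Proof. (1) Let `b` and `a² - 4 b` be nonsquare constants times products of two irreducible polynomials of
degrees `1`, `2 r - 1` and `3`, `2 r - 3`. Then the descents by 2-isogenies, for the points over `L(t)` and for
the Galois invariant classes over `L'(t)`, leave only the points of order two: a product of some of the factors
of `b` which is a norm from `L(t, √(a² - 4 b))` has even degree, because `a² - 4 b` has even degree and a
nonsquare leading coefficient. The number of these pairs is estimated with exponential sums: for a linear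
functional `λ ≠ 0` on the polynomials of degree at most `2 r` the sum of `ψ(λ(a²))` over all `a` is smaller than
the trivial bound by a factor `√|κ|`. (2) There are two infinite sets of primes of `R` with different residue
characteristics (in characteristic zero); for primes with bounded proportions the sieve of helper X243 gives
100 percent.
-/

set_option autoImplicit false
set_option linter.all false

namespace Pool.Agent.Results.MP_1bad5e_ag.AllPrimesByReduction

open Polynomial Pool.Agent.TH115.GD Pool.Agent.W309 Filter Topology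
open scoped Classical

/-- The polynomial with the coefficients `c`. -/
noncomputable def poly {R : Type} [CommRing R] {n : ℕ} (c : Fin n → R) : R[X] :=
  ∑ j : Fin n, C (c j) * X ^ (j : ℕ)

/-- The pairs of coefficient vectors of polynomials of degree at most `r` and `2 r`. -/
abbrev Pairs (r : ℕ) (R : Type) : Type := (Fin (r + 1) → R) × (Fin (2 * r + 1) → R)

/-- The twist `y² = x (x² + c a x + c² b)` over `K = L(t)`, `a` and `b` polynomials over the subfield `κ` of
`L`, `c` in `L`. -/
noncomputable abbrev Ec {κ : Type} [Field κ] {L : Type} (K : Type) [Field L] [Algebra κ L] [Field K]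
    [Algebra L[X] K] (a b : κ[X]) (c : L) : WeierstrassCurve K :=
  crvT (algebraMap L[X] K (C c * a.map (algebraMap κ L)))
    (algebraMap L[X] K (C (c ^ 2) * b.map (algebraMap κ L)))

/-- The conclusions for all the twists by constants of `L` (`L'` is a separable closure of `L`,
`K = L(t)`, `F = L'(t)`). -/
def HoldsOver {κ : Type} [Field κ] (a b : κ[X]) (L L' K F : Type) [Field L] [Field L']
    [Algebra L L'] [Field K] [Algebra L[X] K] [Field F] [Algebra L'[X] F]
    [IsFractionRing L'[X] F] [Algebra K F] [Algebra κ L] : Prop :=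
  ∀ c : L, c ≠ 0 →
    TateAtTwo (F := F) L' (Ec K a b c) ∧
    Sha.PointsComplete (Ec K a b c) ∧
    (AddGroup.FG (Pt (Ec K a b c) K) → Finite (Pt (Ec K a b c) K))

/-- The good pairs over a finite field `κ`. -/
structure Good (κ : Type) [Field κ] (r : ℕ) (a b : κ[X]) : Prop where
  degB : b.natDegree = 2 * r
  degD : (a ^ 2 - 4 * b).natDegree = 2 * r
  sqf : Squarefree (b * (a ^ 2 - 4 * b))
  tate : ∀ (L L' K F : Type) [Field L] [Field L'] [Algebra L L'] [Field K] [Algebra L[X] K]
    [Field F] [Algebra L'[X] F] [IsFractionRing L'[X] F] [Algebra K F]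
    [Algebra κ L] [FiniteDimensional κ L], IsTower L L' K F →
      Nat.Coprime (6 * (2 * r - 1) * (2 * r - 3)) (Module.finrank κ L) →
        HoldsOver a b L L' K F

/-- For every prime number `ℓ ≠ 0` in `R` there is a homomorphism from `R` onto a finite field of odd
characteristic different from `ℓ` such that the reduction of `(a, b)` is good. -/
def GoodReductions {R : Type} [CommRing R] (r : ℕ) (a b : R[X]) : Prop :=
  ∀ ℓ : ℕ, ℓ.Prime → (ℓ : R) ≠ 0 →
    ∃ (κ : Type) (_ : Field κ) (_ : Finite κ) (φ : R →+* κ), Function.Surjective φ ∧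
      (2 : κ) ≠ 0 ∧ (ℓ : κ) ≠ 0 ∧ Good κ r (a.map φ) (b.map φ)

/-- The pair `y` over `R` is in the residue class `z`. -/
def InClass {R : Type} [CommRing R] {r : ℕ} {M : Ideal R} (y : Pairs r R)
    (z : Pairs r (R ⧸ M)) : Prop :=
  (∀ j, Ideal.Quotient.mk M (y.1 j) = z.1 j) ∧ (∀ j, Ideal.Quotient.mk M (y.2 j) = z.2 j)

/-- A sequence of finite sets of pairs which is equidistributed modulo each ideal with finite
quotient. -/
def Equidistributed {R : Type} [CommRing R] {r : ℕ} (B : ℕ → Finset (Pairs r R)) : Prop :=
  ∀ M : Ideal R, Finite (R ⧸ M) → ∀ z : Pairs r (R ⧸ M),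
    Tendsto (fun i => (((B i).filter (fun y => InClass y z)).card : ℝ) / ((B i).card : ℝ)) atTop
      (𝓝 (1 / (Nat.card (Pairs r (R ⧸ M)) : ℝ)))

/-- The vector of all the coefficients. -/
def toV {r : ℕ} {R : Type} (z : Pairs r R) : Fin (r + 1) ⊕ Fin (2 * r + 1) → R := Sum.elim z.1 z.2

theorem toV_inj {r : ℕ} {R : Type} : Function.Injective (toV (r := r) (R := R)) := by
  rintro ⟨a, b⟩ ⟨a', b'⟩ h
  exact Prod.ext (funext fun j => congrFun h (Sum.inl j)) (funext fun j => congrFun h (Sum.inr j))

theorem toV_surj {r : ℕ} {R : Type} (y : Fin (r + 1) ⊕ Fin (2 * r + 1) → R) :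
    ∃ z : Pairs r R, toV z = y := by
  refine ⟨(fun j => y (Sum.inl j), fun j => y (Sum.inr j)), ?_⟩
  funext j
  rcases j with j | j <;> rfl

theorem inClass_iff {R : Type} [CommRing R] {r : ℕ} {M : Ideal R} (y : Pairs r R)
    (z : Pairs r (R ⧸ M)) :
    InClass y z ↔ ∀ j, Ideal.Quotient.mk M (toV y j) = toV z j := by
  constructor
  · rintro ⟨h1, h2⟩ (j | j)
    · exact h1 j
    · exact h2 j
  · intro h
    exact ⟨fun j => h (Sum.inl j), fun j => h (Sum.inr j)⟩

theorem card_pairs {r : ℕ} {R : Type} [Finite R] :
    (Nat.card (Pairs r R) : ℝ) = (Nat.card R : ℝ) ^ (3 * r + 2) := by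
  rw [Nat.card_congr (Equiv.ofBijective _ ⟨toV_inj (r := r) (R := R), toV_surj⟩),
    Nat.card_fun, Nat.card_eq_fintype_card (α := Fin (r + 1) ⊕ Fin (2 * r + 1)),
    Fintype.card_sum, Fintype.card_fin, Fintype.card_fin]
  push_cast
  congr 1
  omega

open Pool.Agent.K9h33.RD in
/-- The pairs with the given factorizations are good. -/
theorem good_of {κ : Type} [Field κ] [Finite κ] (h2 : (2 : κ) ≠ 0) {r : ℕ} (hr : 4 ≤ r) {a b : κ[X]}
    (hb : PairDeg 1 (2 * r - 1) b) (hd : PairDeg 3 (2 * r - 3) (a ^ 2 - 4 * b)) :
    Good κ r a b := by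
  refine ⟨by rw [hb.natDegree]; omega, by rw [hd.natDegree]; omega,
    hb.sqf hd (by omega) (by omega) (by omega) (by omega) (by omega) (by omega), ?_⟩
  intro L L' K F _ _ _ _ _ _ _ _ _ _ _ hT hco c hc
  haveI := hT.fracK
  haveI : Finite L := Module.finite_of_finite κ
  have h2L : (2 : L) ≠ 0 := by
    rw [← map_ofNat (algebraMap κ L) 2]
    exact (map_ne_zero_iff _ (algebraMap κ L).injective).2 h2
  have c2 : Nat.Coprime 2 (Module.finrank κ L) :=
    Nat.Coprime.coprime_dvd_left ⟨3 * (2 * r - 1) * (2 * r - 3), by ring⟩ hco
  have c3 : Nat.Coprime 3 (Module.finrank κ L) :=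
    Nat.Coprime.coprime_dvd_left ⟨2 * (2 * r - 1) * (2 * r - 3), by ring⟩ hco
  have c4 : Nat.Coprime (2 * r - 1) (Module.finrank κ L) :=
    Nat.Coprime.coprime_dvd_left ⟨6 * (2 * r - 3), by ring⟩ hco
  have c5 : Nat.Coprime (2 * r - 3) (Module.finrank κ L) :=
    Nat.Coprime.coprime_dvd_left ⟨6 * (2 * r - 1), by ring⟩ hco
  have hb' : OddPair (b.map (algebraMap κ L)) :=
    (hb.ext c2 (Nat.coprime_one_left _) c4).oddPair odd_one ⟨r - 1, by omega⟩ (by omega)
  have hd' : OddPair ((a.map (algebraMap κ L)) ^ 2 - 4 * b.map (algebraMap κ L)) := by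
    have h3 := (hd.ext c2 c3 c5).oddPair (by decide) ⟨r - 2, by omega⟩ (by omega)
    rwa [Polynomial.map_sub, Polynomial.map_pow, Polynomial.map_mul, Polynomial.map_ofNat] at h3
  obtain ⟨g1, g2⟩ := holds hT h2L hb' hd' hc
  exact ⟨g1, g2, fun hfg => finite_of_complete (A := Pt (Ec K a b c) K) g2 hfg⟩

open Pool.Agent.K9h33.RD Pool.Agent.Y160.T3 in
theorem good_of_GR {κ : Type} [Field κ] [Finite κ] (h2 : (2 : κ) ≠ 0) {r : ℕ} (hr : 4 ≤ r)
    {z : Pairs r κ} (h : toV z ∈ GR r κ) : Good κ r (poly z.1) (poly z.2) :=
  good_of h2 hr h.1 h.2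

theorem poly_map {R S : Type} [CommRing R] [CommRing S] (φ : R →+* S) {n : ℕ} (c : Fin n → R) :
    (poly c).map φ = poly (fun j => φ (c j)) := by
  simp only [poly, Polynomial.map_sum, Polynomial.map_mul, Polynomial.map_pow, map_X, map_C]

theorem two_ne {R : Type} [CommRing R] {B : ℕ} {p : Ideal R} (hp : p ∈ Pool.Agent.X243.Gen.Zg R B) :
    (2 : R ⧸ p) ≠ 0 := by
  rw [← map_ofNat (Ideal.Quotient.mk p) 2, Ne, Ideal.Quotient.eq_zero_iff_mem]
  exact hp.2.2.2

theorem result (r : ℕ) (hr : 4 ≤ r) :
    -- (1) finite fields
    (∀ (κ : Type) [Field κ] [Finite κ], (2 : κ) ≠ 0 →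
      4 * (768 * (2 * r - 1) * (2 * r - 3)) ^ 2 ≤ Nat.card κ →
      (Nat.card (Pairs r κ) : ℝ) ≤ 2 * ((768 * (2 * r - 1) * (2 * r - 3) : ℕ) : ℝ) *
        (({z : Pairs r κ | Good κ r (poly z.1) (poly z.2)}.ncard : ℕ) : ℝ)) ∧
    -- (2) 100 percent
    (∀ (R : Type) [CommRing R] [IsDomain R] [Algebra.FiniteType ℤ R], ¬ IsField R → (2 : R) ≠ 0 →
      ∀ B : ℕ → Finset (Pairs r R), (∀ i, (B i).Nonempty) → Equidistributed B →
        Tendsto (fun i => (((B i).filter (fun y =>
            GoodReductions r (poly y.1) (poly y.2))).card : ℝ) /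
          ((B i).card : ℝ)) atTop (𝓝 1)) := by
  have key : ∀ (κ : Type) [Field κ] [Finite κ], (2 : κ) ≠ 0 →
      4 * (Pool.Agent.K9h33.RD.KK r) ^ 2 ≤ Nat.card κ →
      (Nat.card κ : ℝ) ^ (3 * r + 2) ≤ 2 * ((Pool.Agent.K9h33.RD.KK r : ℕ) : ℝ) *
        (((Pool.Agent.K9h33.RD.GR r κ).ncard : ℕ) : ℝ) := by
    intro κ _ _ h2 hq
    letI := Fintype.ofFinite κ
    rw [Nat.card_eq_fintype_card] at hq ⊢
    exact Pool.Agent.K9h33.RD.GR_card h2 hr hq
  constructor
  · intro κ _ _ h2 hq
    have h3 := key κ h2 hq
    rw [card_pairs]
    refine h3.trans (mul_le_mul_of_nonneg_left ?_ (by positivity))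
    have h4 : (Pool.Agent.K9h33.RD.GR r κ).ncard ≤
        {z : Pairs r κ | Good κ r (poly z.1) (poly z.2)}.ncard := by
      rw [← Set.ncard_image_of_injective _ (toV_inj (r := r) (R := κ))]
      refine Set.ncard_le_ncard ?_ (Set.toFinite _)
      intro x hx
      obtain ⟨z, rfl⟩ := toV_surj x
      exact ⟨z, good_of_GR h2 hr hx, rfl⟩
    exact_mod_cast h4
  · intro R _ _ _ hR h2 B hB heq
    obtain ⟨Z, hZinf, hZsub, hZ⟩ := Pool.Agent.K9h33.RD.two_sets R hR h2
      (4 * (Pool.Agent.K9h33.RD.KK r) ^ 2)
    -- the two events
    obtain ⟨S, hS⟩ : ∃ S : Bool → Set (Fin (r + 1) ⊕ Fin (2 * r + 1) → R), ∀ s, S s =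
        {y | ∃ p ∈ Z s, (fun j => Ideal.Quotient.mk p (y j)) ∈
          Pool.Agent.K9h33.RD.GR r (R ⧸ p)} := ⟨_, fun s => rfl⟩
    have hKpos : (0 : ℝ) < (Pool.Agent.K9h33.RD.KK r : ℕ) := by
      exact_mod_cast Pool.Agent.K9h33.RD.KK_pos (by omega : 2 ≤ r)
    have hcardι : Fintype.card (Fin (r + 1) ⊕ Fin (2 * r + 1)) = 3 * r + 2 := by
      rw [Fintype.card_sum, Fintype.card_fin, Fintype.card_fin]
      omega
    have dens : ∀ s, ∀ η : ℝ, 0 < η → ∃ M : Ideal R, Finite (R ⧸ M) ∧
        (1 - η) * (Nat.card (R ⧸ M) : ℝ) ^ (Fintype.card (Fin (r + 1) ⊕ Fin (2 * r + 1))) ≤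
        (({x : Fin (r + 1) ⊕ Fin (2 * r + 1) → R ⧸ M | ∀ y : Fin (r + 1) ⊕ Fin (2 * r + 1) → R,
          (∀ j, Ideal.Quotient.mk M (y j) = x j) → y ∈ S s}).ncard : ℝ) := by
      intro s η hη
      obtain ⟨M, hM, hd⟩ := Pool.Agent.X243.Gen.densityG (σ := Unit) (Z s) (hZinf s)
        (fun p hp => (hZsub s hp).1) (fun p hp => (hZsub s hp).2.1)
        (fun _ p => Pool.Agent.K9h33.RD.GR r (R ⧸ p))
        (c := 1 / (2 * ((Pool.Agent.K9h33.RD.KK r : ℕ) : ℝ))) (by positivity) (by
          intro _ p hp
          have hp' := hZsub s hp
          haveI := hp'.1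
          letI : Field (R ⧸ p) := Ideal.Quotient.field p
          haveI : Finite (R ⧸ p) := hp'.2.1
          have h5 := key (R ⧸ p) (two_ne hp') hp'.2.2.1
          rw [hcardι, one_div, inv_mul_le_iff₀ (by positivity)]
          exact h5) η hη
      have := hM
      refine ⟨M, hM, hd.trans ?_⟩
      have h3 : ∀ S T : Set (Fin (r + 1) ⊕ Fin (2 * r + 1) → R ⧸ M), S ⊆ T →
          ((S.ncard : ℕ) : ℝ) ≤ ((T.ncard : ℕ) : ℝ) := fun S T h => by
        exact_mod_cast Set.ncard_le_ncard h (Set.toFinite _)
      apply h3
      intro x hx y hy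
      obtain ⟨p, hp, hp'⟩ := hx ()
      rw [hS]
      exact ⟨p, hp, hp' y hy⟩
    -- the map to vectors
    have hinj : Function.Injective (toV (R := R) (r := r)) := toV_inj
    have hc : ∀ (i : ℕ) (P : (Fin (r + 1) ⊕ Fin (2 * r + 1) → R) → Prop) [DecidablePred P]
        (Q : Pairs r R → Prop) [DecidablePred Q], (∀ y, P (toV y) ↔ Q y) →
        (((B i).map ⟨toV, hinj⟩).filter P).card = ((B i).filter Q).card := by
      intro i P _ Q _ hPQ
      rw [Finset.filter_map, Finset.card_map]
      congr 1
      ext y
      rw [Finset.mem_filter, Finset.mem_filter]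
      exact and_congr_right fun _ => hPQ y
    have hlim : ∀ s, Tendsto (fun i => (((B i).filter (fun y => toV y ∈ S s)).card : ℝ) /
        ((B i).card : ℝ)) atTop (𝓝 1) := by
      intro s
      have h1 := Pool.Agent.X243.Gen.tendsto_of_dens (S s) (dens s)
        (fun i => (B i).map ⟨toV, hinj⟩) (fun i => (hB i).map) (by
          intro M hM x
          obtain ⟨z, rfl⟩ := toV_surj x
          have h1 := heq M hM z
          rw [card_pairs, ← hcardι] at h1
          refine h1.congr fun i => ?_
          rw [Finset.card_map, hc i _ (fun y => InClass y z) (fun y => (inClass_iff y z).symm)])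
      refine h1.congr fun i => ?_
      rw [Finset.card_map, hc i _ (fun y => toV y ∈ S s) (fun y => Iff.rfl)]
    -- good reductions
    have hgood : ∀ y : Pairs r R, toV y ∈ S false → toV y ∈ S true →
        GoodReductions r (poly y.1) (poly y.2) := by
      intro y h0 h1 ℓ hℓ hℓ0
      rw [hS] at h0 h1
      obtain ⟨p, hp, hp'⟩ := h0
      obtain ⟨q, hq, hq'⟩ := h1
      have red : ∀ s, ∀ p ∈ Z s, (fun j => Ideal.Quotient.mk p (toV y j)) ∈
          Pool.Agent.K9h33.RD.GR r (R ⧸ p) → (ℓ : R) ∉ p →
          ∃ (κ : Type) (_ : Field κ) (_ : Finite κ) (φ : R →+* κ), Function.Surjective φ ∧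
            (2 : κ) ≠ 0 ∧ (ℓ : κ) ≠ 0 ∧ Good κ r ((poly y.1).map φ) ((poly y.2).map φ) := by
        intro s p hp hp' hℓp
        have hpz := hZsub s hp
        haveI := hpz.1
        letI : Field (R ⧸ p) := Ideal.Quotient.field p
        haveI : Finite (R ⧸ p) := hpz.2.1
        have h2p : (2 : R ⧸ p) ≠ 0 := two_ne hpz
        refine ⟨R ⧸ p, inferInstance, inferInstance, Ideal.Quotient.mk p,
          Ideal.Quotient.mk_surjective, h2p, ?_, ?_⟩
        · rw [← map_natCast (Ideal.Quotient.mk p), Ne, Ideal.Quotient.eq_zero_iff_mem]
          exact hℓp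
        · rw [poly_map, poly_map]
          exact good_of_GR (z := (fun j => Ideal.Quotient.mk p (y.1 j),
            fun j => Ideal.Quotient.mk p (y.2 j))) h2p hr (by
              have e : (fun j => Ideal.Quotient.mk p (toV y j)) =
                  toV ((fun j => Ideal.Quotient.mk p (y.1 j)),
                    fun j => Ideal.Quotient.mk p (y.2 j)) := by
                funext j
                rcases j with j | j <;> rfl
              rw [← e]
              exact hp')
      by_cases hℓp : (ℓ : R) ∈ p
      · exact red true q hq hq' (hZ p hp q hq ℓ hℓ hℓ0 hℓp)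
      · exact red false p hp hp' hℓp
    have hpos : ∀ n, (0 : ℝ) < ((B n).card : ℝ) := fun n => by exact_mod_cast (hB n).card_pos
    have hsum : Tendsto (fun i => (((B i).filter (fun y => toV y ∈ S false)).card : ℝ) /
        ((B i).card : ℝ) + (((B i).filter (fun y => toV y ∈ S true)).card : ℝ) /
        ((B i).card : ℝ) - 1) atTop (𝓝 1) := by
      have h1 := ((hlim false).add (hlim true)).sub_const 1
      norm_num at h1
      exact h1
    refine tendsto_of_tendsto_of_tendsto_of_le_of_le hsum tendsto_const_nhds (fun i => ?_)
      (fun i => ?_)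
    · show (((B i).filter (fun y => toV y ∈ S false)).card : ℝ) /
        ((B i).card : ℝ) + (((B i).filter (fun y => toV y ∈ S true)).card : ℝ) /
        ((B i).card : ℝ) - 1 ≤ _
      rw [← add_div, div_sub_one (hpos i).ne']
      refine div_le_div_of_nonneg_right ?_ (hpos i).le
      have h1 := Finset.card_union_add_card_inter ((B i).filter (fun y => toV y ∈ S false))
        ((B i).filter (fun y => toV y ∈ S true))
      have h3 : ((B i).filter (fun y => toV y ∈ S false) ∪
          (B i).filter (fun y => toV y ∈ S true)).card ≤ (B i).card :=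
        Finset.card_le_card (Finset.union_subset (Finset.filter_subset _ _)
          (Finset.filter_subset _ _))
      have h4 : ((B i).filter (fun y => toV y ∈ S false) ∩
          (B i).filter (fun y => toV y ∈ S true)).card ≤
          ((B i).filter (fun y => GoodReductions r (poly y.1) (poly y.2))).card := by
        refine Finset.card_le_card ?_
        intro y hy
        rw [Finset.mem_inter, Finset.mem_filter, Finset.mem_filter] at hy
        rw [Finset.mem_filter]
        exact ⟨hy.1.1, hgood y hy.1.2 hy.2.2⟩
      have h5 : (((B i).filter (fun y => toV y ∈ S false)).card +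
          ((B i).filter (fun y => toV y ∈ S true)).card : ℕ) ≤ (B i).card +
          ((B i).filter (fun y => GoodReductions r (poly y.1) (poly y.2))).card := by omega
      have h6 : ((((B i).filter (fun y => toV y ∈ S false)).card : ℝ) +
          ((B i).filter (fun y => toV y ∈ S true)).card) ≤ (B i).card +
          ((B i).filter (fun y => GoodReductions r (poly y.1) (poly y.2))).card := by
        exact_mod_cast h5
      linarith
    · show _ ≤ (1 : ℝ)
      rw [div_le_one (hpos i)]
      exact_mod_cast Finset.card_filter_le _ _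

end Pool.Agent.Results.MP_1bad5e_ag.AllPrimesByReduction
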