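import Pool.Agent.K9h8.Kum.Plane2

/-!
# The Tate conjecture for double planes over finite fields whose branch curve has odd class number

Let `k` be a finite field with `q` elements, `q` odd, and `f` a form of degree `2 e` in three variables over `k` whose
zero set `B` is a smooth plane curve with an ODD class number (the number of `k`-points of its Jacobian; `L(1)` for
the numerator `L` of the zeta function of `B`). Let `c` be a nonsquare of `k` and consider the two double planes

`X : w² = f(x, y, z)`,  `X' : w² = c f(x, y, z)`

branched along `B`. They are smooth, simply connected surfaces, with geometric genus `(e - 1) (e - 2) / 2`, of general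
type for `e ≥ 4`. Write `Z = 1 / ((1 - T) (1 - q T) R(T) (1 - q² T))` for their zeta functions (`IsPrimitivePart`);
`R` is the characteristic polynomial of the Frobenius on the primitive part of the second cohomology. We show:

* `R'(T) = R(-T)` for `X'`;
* in every field of characteristic `0`, `R` has at most one zero (with multiplicities) of the form `ζ / q` with `ζ` a
  root of unity of `2`-power order: over all extensions of `k` of `2`-power degree, the zeta functions of `X`, `X'`
  have a pole of order at most `2` at `s = 1`;
* at least one of `R`, `R'` does not vanish at `1 / q`. For this surface (`X` or `X'`) the Tate conjecture for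
  divisors holds, with Picard number one; and if it is a good reduction of a surface over a finitely generated
  field, this surface has no Tate classes besides the multiples of the class of the hyperplane section.
* (The degree of `R` is `2 g(B) + 1`, and `R` satisfies the functional equation with a sign.) If the degree is odd
  and the functional equation holds, exactly one of `R`, `R'` vanishes at `1 / q`.

The proof computes the zeta function of `X` modulo `2` from the strata of the plane; modulo `2` it has a pole of order
exactly `4` at `T = 1`.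
-/

set_option autoImplicit false

namespace Pool.Agent.Results.MP_1bad5e_ag.DoublePlanes

open Pool.Agent.K9h8.Kum Polynomial

theorem result
    -- a finite field of odd characteristic and an algebraically closed extension
    (k : Type) [Field k] [Fintype k] (h2 : (2 : k) ≠ 0) (K : Type) [Field K] [Algebra k K]
    [IsAlgClosed K]
    -- the branch curve, of degree `2 e`, with odd class number `L(1)`
    (e : ℕ) (f : MvPolynomial (Fin 3) k) (hf : f.IsHomogeneous (2 * e)) (L : ℤ[X])
    (hL : IsNumerator k K (zeros K f) L) (hodd : ¬ (2 : ℤ) ∣ L.eval 1)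
    -- the two double planes and their primitive parts
    (c : k) (hc : ¬ IsSquare c) (R R' : ℤ[X])
    (hR : IsPrimitivePart (Fintype.card k) (doublePlane k K e f) R)
    (hR' : IsPrimitivePart (Fintype.card k) (doublePlane k K e (MvPolynomial.C c * f)) R') :
    R' = R.comp (-X) ∧
    (∀ (E : Type) [Field E] [CharZero E] (a : ℕ) (s : Multiset E),
      s ≤ (R.map (Int.castRingHom E)).roots → (∀ z ∈ s, (z * (Fintype.card k : E)) ^ (2 ^ a) = 1) →
      Multiset.card s ≤ 1) ∧
    (((R.map (Int.castRingHom ℚ)).eval (1 / (Fintype.card k : ℚ)) ≠ 0 ∧
        NoTate (Fintype.card k) R 1) ∨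
      ((R'.map (Int.castRingHom ℚ)).eval (1 / (Fintype.card k : ℚ)) ≠ 0 ∧
        NoTate (Fintype.card k) R' 1)) ∧
    (Odd R.natDegree → FunctionalEquation (Fintype.card k) R →
      ((R.map (Int.castRingHom ℚ)).eval (1 / (Fintype.card k : ℚ)) = 0 ↔
        (R'.map (Int.castRingHom ℚ)).eval (1 / (Fintype.card k : ℚ)) ≠ 0)) := by
  have hdvd := two_dvd (k := k) h2
  have hB : PoleOrder 2 (nOrb (frobP k K (Fin 3)) (zeros K f)) 2 :=
    (poleOrder_curve (ℓ := 2) hdvd hL).2 hodd
  have hord := hasOrd_doublePlane (K := K) h2 hf hB hR
  have htw := primitive_twist (K := K) h2 hf hc hR hR'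
  have hq0 : (Fintype.card k : ℤ) ≠ 0 := by exact_mod_cast Fintype.card_ne_zero
  have hspec : ∀ (E : Type) [Field E] [CharZero E] (a : ℕ) (s : Multiset E),
      s ≤ (R.map (Int.castRingHom E)).roots → (∀ z ∈ s, (z * (Fintype.card k : E)) ^ (2 ^ a) = 1) →
      Multiset.card s ≤ 1 := by
    intro E _ _ a s hs hz
    refine card_special_le (ℓ := 2) (q := Fintype.card k) hdvd hR.1 (by exact_mod_cast hord) a s hs ?_
    intro z hz'
    have := hz z hz'
    simpa using this
  refine ⟨htw, hspec, ?_⟩
  have hRne : R.map (Int.castRingHom ℚ) ≠ 0 := by
    rw [Ne, Polynomial.map_eq_zero_iff (Int.castRingHom ℚ).injective_int]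
    rintro rfl
    have := hR.1
    simp at this
  have hR'eval : (R'.map (Int.castRingHom ℚ)).eval (1 / (Fintype.card k : ℚ)) =
      (R.map (Int.castRingHom ℚ)).eval (-1 / (Fintype.card k : ℚ)) := by
    rw [htw, Polynomial.map_comp, Polynomial.map_neg, Polynomial.map_X, Polynomial.eval_comp,
      Polynomial.eval_neg, Polynomial.eval_X]
    congr 1
    ring
  have hqQ : (Fintype.card k : ℚ) ≠ 0 := by exact_mod_cast Fintype.card_ne_zero
  -- not both
  have hnot : ¬ ((R.map (Int.castRingHom ℚ)).eval (1 / (Fintype.card k : ℚ)) = 0 ∧
      (R.map (Int.castRingHom ℚ)).eval (-1 / (Fintype.card k : ℚ)) = 0) := by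
    rintro ⟨h3, h4⟩
    have hne : (1 / (Fintype.card k : ℚ)) ≠ -1 / (Fintype.card k : ℚ) := by
      intro h
      have h5 : (1 : ℚ) = -1 := by
        field_simp at h
        linarith
      norm_num at h5
    have hle : ({1 / (Fintype.card k : ℚ), -1 / (Fintype.card k : ℚ)} : Multiset ℚ) ≤
        (R.map (Int.castRingHom ℚ)).roots := by
      have hnd : ({1 / (Fintype.card k : ℚ), -1 / (Fintype.card k : ℚ)} : Multiset ℚ).Nodup := by
        rw [Multiset.insert_eq_cons, Multiset.nodup_cons]
        refine ⟨?_, Multiset.nodup_singleton _⟩
        rw [Multiset.mem_singleton]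
        exact hne
      rw [Multiset.le_iff_subset hnd]
      intro x hx
      rw [Multiset.insert_eq_cons, Multiset.mem_cons, Multiset.mem_singleton] at hx
      rw [Polynomial.mem_roots hRne, Polynomial.IsRoot.def]
      rcases hx with rfl | rfl
      · exact h3
      · exact h4
    have hcard := hspec ℚ 1 _ hle (by
      intro x hx
      rw [Multiset.insert_eq_cons, Multiset.mem_cons, Multiset.mem_singleton] at hx
      rcases hx with rfl | rfl
      · rw [div_mul_cancel₀ _ hqQ, one_pow]
      · rw [div_mul_cancel₀ _ hqQ]
        norm_num)
    simp at hcard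
  refine ⟨?_, fun hdeg hfe => ?_⟩
  · by_cases h3 : (R.map (Int.castRingHom ℚ)).eval (1 / (Fintype.card k : ℚ)) = 0
    · right
      have h4 : (R'.map (Int.castRingHom ℚ)).eval (1 / (Fintype.card k : ℚ)) ≠ 0 := by
        rw [hR'eval]
        exact fun h => hnot ⟨h3, h⟩
      exact ⟨h4, noTate_one hq0 (by push_cast; exact h4)⟩
    · left
      exact ⟨h3, noTate_one hq0 (by push_cast; exact h3)⟩
  · rw [hR'eval]
    constructor
    · exact fun h3 h4 => hnot ⟨h3, h4⟩
    · intro h4
      rcases hfe.zero hq0 hdeg with h3 | h3
      · push_cast at h3
        exact h3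
      · push_cast at h3
        exact absurd h3 h4

end Pool.Agent.Results.MP_1bad5e_ag.DoublePlanes
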