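import Mathlib
import Pool.Agent.K9h16.BT.Fin2
import Pool.Agent.K9h16.BT.Evt2
import Pool.Agent.K9h16.BT.Exa
import Pool.Agent.K9h16.GK.Def
import Pool.Agent.K9h16.GK.Pul

/-!
# A Galois criterion for the potential Tate conjecture at 2 and for the sections over the closure of the
# constants, for the pullbacks of every rational elliptic surface with a section of order two, 4 fibres
# `I₂` and 4 fibres `I₁` (rational over the base field), over all fields of characteristic different from 2

Let `k` be ANY field of characteristic different from 2, and `E₀ : y² = x (x² + a x + b)` a rational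
elliptic surface over `k(s)` with a section of order two: `a` is a polynomial of degree at most 2, `b` and
`d = a² - 4 b` have degree 4, are separable and coprime and products of linear polynomials over `k`
(`Base`). So the surface has four fibres of type `I₂` (the roots of `b`) and four fibres of type `I₁` (the
roots of `d`), all over `k`-rational points, and good reduction elsewhere. Nothing is assumed on its
sections.

For coprime polynomials `q`, `r` over `k` let `E` be the pullback of `E₀` by `s = q(t) / r(t)`, the curve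
`y² = x (x² + a' x + b')`, `a' = ∑ a_i q^i r^(2 - i)`, `b' = ∑ b_i q^i r^(4 - i)` (`surf2`), the generic
fibre of an elliptic surface over the projective line. Let `n ≥ 5` be odd. The pair `(q, r)` satisfies the
CRITERION for `(a, b)` if

* `q` has degree `n`, and `r` has degree at most `n`, and they are coprime,
* for each of the eight roots `ξ` of `b d` the polynomial `q - ξ r` is separable of degree `n`,
* for any two different roots `ξ`, `ξ'` of `b d` the Galois group of `(q - ξ r) (q - ξ' r)` over `k` is the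
  product of the two symmetric groups of the roots,
* for each root `ξ` of `b` and each root `η` of `d` there are roots `θ`, `θ'` of `q - ξ r` and `ρ`, `ρ'` of
  `q - η r` such that the product `(θ - ρ) (θ' - ρ) (θ - ρ') (θ' - ρ')` is not a square in the splitting field
  of `(q - ξ r) (q - η r)`.

Theorem. Let `n ≥ 5` be odd and `(a, b)` a base over `k`.

(1) (The criterion.) Let `(q, r)` satisfy the criterion for `(a, b)`.

(i) For EVERY finite separable extension `L` of `k` (with a separable closure `L'`) and every `δ ≠ 0` in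
`L` the Tate conjecture for divisors at the prime 2 holds over `L` for the twist
`y² = x (x² + δ a' x + δ² b')` by `δ` (`TateQ 2`): for the classes in `V₂ Sel(E / L'(t))` which are fixed
by the Galois group there is `N > 0` such that `N` times the class comes from the points over `L(t)`.

(ii) Let `k'` be a separable closure of `k`. The pullback `ι : E₀(k'(s)) → E(k'(t))`,
`(x, y) ↦ (r² x(q/r), r³ y(q/r))`, is an injective homomorphism with `E(k'(t)) = ι(E₀(k'(s))) + 2 E(k'(t))`; and
if `E(k'(t))` is finitely generated (the theorem of Lang and Néron) there is an odd number `m` with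
`m E(k'(t)) ⊆ ι(E₀(k'(s)))`: the pullback has no new sections over the separable closure of `k`.

(2) (100%.) Let `R` be an integrally closed domain which is finitely generated as a ring and not a field,
with `2 ≠ 0` in `R`, and `k` its field of fractions (each infinite finitely generated field of
characteristic different from 2 is of this form). If `B 0`, `B 1`, ... is a sequence of nonempty finite sets
of pairs over `R` of degree at most `n` which is equidistributed modulo each ideal of `R` with finite
quotient, then the proportion of the pairs in `B i` which satisfy the criterion for `(a, b)` tends to `1`.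

(3) (Example.) `a = 6 (s² - 24)`, `b = -3 (s² - 4) (s² - 144)`, `d = 48 (s² - 9) (s² - 64)` is a base over every
field `k` of characteristic different from 2, 3, 5, 7 and 11.

The proof. Let `H` be an open normal subgroup of the Galois group of `k'(t)^s` over `k(t)` and `c` a class in
`T₂ Sel(E / k'(t))` which is fixed by `H` in `V₂ Sel`. The image of `c` in the Selmer group of the isogeny of
degree two is a set of roots of `b'`. For the elements `w` which fix all the roots of `b' d'` and change the
signs of the square roots of only four of the differences `θ - η`, `(w² - 1) c` is divisible by two up to torsion;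
since the group generated by `w` acts on `V₂ Sel` through a finite quotient and trivially modulo 2, this
gives relations between the sets for these classes, by a formula for the second descent. The cycles
of length three in the symmetric groups of the roots of the forms `q - ξ r`, which fix the roots of the other
forms, and these `w` (commutators of elements which change the sign of the nonsquare products) show that the
set is a union of the sets of all the roots of some of the forms. The place at infinity shows that the number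
of these forms is even (`n` is odd). All the even sets of roots of `b` are the classes of points of `E₀` over
`k'(s)`, whose pullbacks are fixed by an open subgroup. With the same for the isogenous surface it follows by
the descent that all the classes fixed by `H` come from points fixed by `H`, and the mean over the finite group
proves (i). The classes of the sections over `k'(t)` are among these, which gives (ii). For (2): Frobenius
elements at maximal ideals of `R` show the criterion, and a sieve over the maximal ideals of `R`.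
-/

namespace Pool.Agent.Results.MP_1bad5e_ag.GaloisCriterion

open Polynomial Pool.Agent.TH115.GD Pool.Agent.N181.P9 Pool.Agent.K9h16.BT Pool.Agent.K9h16.GK Filter Topology
open Pool.Agent.N181.P8 (TateQ)
open Pool.Agent.N181.P3 (Zq)
open scoped Classical

/-- A rational elliptic surface `y² = x (x² + a x + b)` with a section of order two, four fibres `I₂` and
four fibres `I₁` over rational points different from infinity. -/
structure Base {k : Type} [Field k] (a b : k[X]) : Prop where
  da : a.natDegree ≤ 2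
  db : b.natDegree = 4
  dd : (a ^ 2 - 4 * b).natDegree = 4
  sb : b.Separable
  sd : (a ^ 2 - 4 * b).Separable
  cop : IsCoprime b (a ^ 2 - 4 * b)
  spl : (b * (a ^ 2 - 4 * b)).Splits

/-- The polynomial over `k` with the coefficients `c`. -/
noncomputable def poly {R : Type} [CommRing R] (k : Type) [Field k] [Algebra R k] {r : ℕ}
    (c : Fin r → R) : k[X] :=
  ∑ j : Fin r, C (algebraMap R k (c j)) * X ^ (j : ℕ)

/-- The pairs of coefficient vectors of polynomials of degree at most `n`. -/
abbrev Pairs (n : ℕ) (R : Type) : Type := (Fin (n + 1) → R) × (Fin (n + 1) → R)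

/-- The base over a field of functions `F₀` of the variable `s` over `k'`. -/
noncomputable abbrev baseCrv {k : Type} [Field k] (a b : k[X]) (k' F₀ : Type) [Field k']
    [Algebra k k'] [Field F₀] [Algebra k'[X] F₀] : WeierstrassCurve.Affine F₀ :=
  crvT (algebraMap k'[X] F₀ (a.map (algebraMap k k')))
    (algebraMap k'[X] F₀ (b.map (algebraMap k k')))

/-- The sections of the pullback over `F = k'(t)` are the doubles up to those which come from the base
over `F₀ = k'(s)`, and their odd multiples come from the base if their group is finitely generated; `ι` is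
the homomorphism of the groups of sections. -/
def IsOnto {k : Type} [Field k] (a b q r : k[X]) (k' K F F₀ : Type) [Field k']
    [Algebra k k'] [Field K] [Algebra k[X] K] [Field F] [Algebra K F] [Field F₀]
    [Algebra k'[X] F₀] (ι : Pt (baseCrv a b k' F₀) F₀ →+ Pt (surf2 K q r a b) F) : Prop :=
  (∀ P, ∃ P₀ V, P = ι P₀ + (V + V)) ∧
  (AddGroup.FG (Pt (surf2 K q r a b) F) → ∃ m : ℕ, Odd m ∧ ∀ P, ∃ P₀, m • P = ι P₀)

/-- The sections of the pullback over `F = k'(t)` come from the base over `F₀ = k'(s)` (`ψ` is the inclusion of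
`k'(s)` in `k'(t)` given by `s = q / r`): up to doubles, and up to odd multiples if the group of the
sections is finitely generated. -/
def SectionsFromBase {k : Type} [Field k] (a b q r : k[X]) (k' K F F₀ : Type) [Field k']
    [Algebra k k'] [Field K] [Algebra k[X] K] [Field F] [Algebra k'[X] F] [Algebra K F] [Field F₀]
    [Algebra k'[X] F₀] (ψ : F₀ →+* F) : Prop :=
  ∃ ι : Pt (baseCrv a b k' F₀) F₀ →+ Pt (surf2 K q r a b) F,
    Function.Injective ι ∧
    (∀ P₀, IsPull ψ (algebraMap k'[X] F (r.map (algebraMap k k'))) P₀ (ι P₀)) ∧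
    IsOnto a b q r k' K F F₀ ι

/-- `ψ` is the inclusion of `F₀ = k'(s)` in `F = k'(t)` over `k'` with `s = q / r`. -/
def IsSub {k : Type} [Field k] (q r : k[X]) (k' F F₀ : Type) [Field k'] [Algebra k k'] [Field F]
    [Algebra k'[X] F] [Field F₀] [Algebra k'[X] F₀] (ψ : F₀ →+* F) : Prop :=
  (∀ c : k', ψ (algebraMap k'[X] F₀ (C c)) = algebraMap k'[X] F (C c)) ∧
  ψ (algebraMap k'[X] F₀ X) * algebraMap k'[X] F (r.map (algebraMap k k')) =
    algebraMap k'[X] F (q.map (algebraMap k k'))

/-- The Tate conjecture at the prime 2 over `L` for the twist of the pullback by `δ`. -/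
def TateOver {k : Type} [Field k] (a b q r : k[X]) (L L' K F : Type) [Field L] [Field L']
    [Algebra L L'] [Field K] [Algebra L[X] K] [Field F] [Algebra L'[X] F]
    [IsFractionRing L'[X] F] [Algebra K F] [Algebra k L] (δ : L) : Prop :=
  TateQ (F := F) 2 L' (surf2 K (q.map (algebraMap k L)) (r.map (algebraMap k L))
    (C δ * a.map (algebraMap k L)) (C (δ ^ 2) * b.map (algebraMap k L)))

/-- The Tate conjecture at the prime 2 over all the finite separable extensions `L` of `k` for all the
twists of the pullback. -/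
def TateAll {k : Type} [Field k] (a b q r : k[X]) : Prop :=
  ∀ (L L' K F : Type) [Field L] [Field L'] [Algebra L L'] [Field K] [Algebra L[X] K]
    [Field F] [Algebra L'[X] F] [IsFractionRing L'[X] F] [Algebra K F]
    [Algebra k L] [FiniteDimensional k L] [Algebra.IsSeparable k L], IsTower L L' K F →
      ∀ δ : L, δ ≠ 0 → TateOver a b q r L L' K F δ

/-- The sections over the separable closure of `k` come from the base. -/
def SecAll {k : Type} [Field k] (a b q r : k[X]) : Prop :=
  ∀ (k' K F F₀ : Type) [Field k'] [Algebra k k'] [Field K] [Algebra k[X] K] [Field F]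
    [Algebra k'[X] F] [IsFractionRing k'[X] F] [Algebra K F] [Field F₀] [Algebra k'[X] F₀]
    [IsFractionRing k'[X] F₀], IsTower k k' K F → ∀ ψ : F₀ →+* F, IsSub q r k' F F₀ ψ →
      SectionsFromBase a b q r k' K F F₀ ψ

/-- The criterion for the pair `(q, r)`: `q` has degree `n`, `r` has degree at most `n`, they are coprime, the
polynomials `q - ξ r` for the roots `ξ` of `b (a² - 4 b)` are separable of degree `n`, the Galois group of the
product of any two of them is the product of the two symmetric groups, and for the roots `ξ` of `b` and `η` of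
`a² - 4 b` a minor of `q - ξ r` and `q - η r` is not a square. -/
structure Criterion {k : Type} [Field k] (n : ℕ) (a b q r : k[X]) : Prop where
  cop : IsCoprime q r
  degQ : q.natDegree = n
  degR : r.natDegree ≤ n
  sep : ∀ ξ : k, (b * (a ^ 2 - 4 * b)).IsRoot ξ → (q - C ξ * r).Separable ∧
    (q - C ξ * r).natDegree = n
  gal : ∀ ξ ξ' : k, (b * (a ^ 2 - 4 * b)).IsRoot ξ → (b * (a ^ 2 - 4 * b)).IsRoot ξ' → ξ ≠ ξ' →
    FullProduct (q - C ξ * r) (q - C ξ' * r)
  minor : ∀ ξ η : k, b.IsRoot ξ → (a ^ 2 - 4 * b).IsRoot η →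
    NonsquareMinor (q - C ξ * r) (q - C η * r)

/-- The pair `y` over `R` is in the residue class `z`. -/
def InClass {R : Type} [CommRing R] {n : ℕ} {M : Ideal R} (y : Pairs n R)
    (z : Pairs n (R ⧸ M)) : Prop :=
  (∀ j, Ideal.Quotient.mk M (y.1 j) = z.1 j) ∧ (∀ j, Ideal.Quotient.mk M (y.2 j) = z.2 j)

/-- A sequence of finite sets of pairs which is equidistributed modulo each ideal with finite
quotient. -/
def Equidistributed {R : Type} [CommRing R] {n : ℕ} (B : ℕ → Finset (Pairs n R)) : Prop :=
  ∀ M : Ideal R, Finite (R ⧸ M) → ∀ z : Pairs n (R ⧸ M),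
    Tendsto (fun i => (((B i).filter (fun y => InClass y z)).card : ℝ) / ((B i).card : ℝ)) atTop
      (𝓝 (1 / (Nat.card (Pairs n (R ⧸ M)) : ℝ)))

/-- The sequences of finite sets: the share of the pairs with the criterion tends to 1. -/
def Sequences (R k : Type) [CommRing R] [Field k] [Algebra R k] (n : ℕ) (a b : k[X]) : Prop :=
  ∀ B : ℕ → Finset (Pairs n R), (∀ i, (B i).Nonempty) → Equidistributed B →
    Tendsto (fun i => (((B i).filter (fun y =>
        Criterion n a b (poly k y.1) (poly k y.2))).card : ℝ) /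
      ((B i).card : ℝ)) atTop (𝓝 1)

/-- The vector of all the coefficients. -/
def toV {n : ℕ} {R : Type} (z : Pairs n R) : Fin (n + 1) ⊕ Fin (n + 1) → R := Sum.elim z.1 z.2

theorem toV_inj {n : ℕ} {R : Type} : Function.Injective (toV (n := n) (R := R)) := by
  rintro ⟨a, b⟩ ⟨a', b'⟩ h
  exact Prod.ext (funext fun j => congrFun h (Sum.inl j)) (funext fun j => congrFun h (Sum.inr j))

theorem toV_surj {n : ℕ} {R : Type} (y : Fin (n + 1) ⊕ Fin (n + 1) → R) :
    ∃ z : Pairs n R, toV z = y := by
  refine ⟨(fun j => y (Sum.inl j), fun j => y (Sum.inr j)), ?_⟩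
  funext j
  rcases j with j | j <;> rfl

theorem inClass_iff {R : Type} [CommRing R] {n : ℕ} {M : Ideal R} (y : Pairs n R)
    (z : Pairs n (R ⧸ M)) :
    InClass y z ↔ ∀ j, Ideal.Quotient.mk M (toV y j) = toV z j := by
  constructor
  · rintro ⟨h1, h2⟩ (j | j)
    · exact h1 j
    · exact h2 j
  · intro h
    exact ⟨fun j => h (Sum.inl j), fun j => h (Sum.inr j)⟩

section good

open Pool.Agent.Y160.T3 (bF)

variable {k : Type} [Field k]

theorem root_or {a b : k[X]} {ξ : k} : (b * (a ^ 2 - 4 * b)).IsRoot ξ ↔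
    b.IsRoot ξ ∨ (a ^ 2 - 4 * b).IsRoot ξ := by
  rw [IsRoot.def, eval_mul, mul_eq_zero, IsRoot.def, IsRoot.def]

theorem both_of {n : ℕ} (h2 : (2 : k) ≠ 0) (n5 : 5 ≤ n) (odd : ¬ 2 ∣ n) {a b q r : k[X]}
    (hB : Base a b) (h : Criterion n a b q r) : TateAll a b q r ∧ SecAll a b q r := by
  have hne : b * (a ^ 2 - 4 * b) ≠ 0 := mul_ne_zero hB.sb.ne_zero hB.sd.ne_zero
  have hB' : BC n q r a b := bc_of_crit h2 n5 odd hB.da hB.db hB.dd hB.sb hB.sd hB.cop
    (hB.spl.of_dvd hne (dvd_mul_right _ _)) (hB.spl.of_dvd hne (dvd_mul_left _ _)) h.cop h.degQ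
    h.degR (fun ξ hξ => h.sep ξ (root_or.2 hξ))
    (fun ξ ξ' hξ hξ' hn => h.gal ξ ξ' (root_or.2 hξ) (root_or.2 hξ') hn) h.minor
  constructor
  · intro L L' K F _ _ _ _ _ _ _ _ _ _ _ _ hT δ hδ
    exact fin_tate hT hB' hδ
  · intro k' K F F₀ _ _ _ _ _ _ _ _ _ _ _ hT ψ h
    obtain ⟨ι, h1, h2, h3, h4⟩ := sections hT hB' ψ h.1 h.2
    exact ⟨ι, h1, h2, h3, h4⟩

theorem crit_of_BC {n : ℕ} {a b q r : k[X]} (hB : BC n q r a b) : Criterion n a b q r where
  cop := hB.cop
  degQ := hB.dq
  degR := hB.dr
  sep := fun ξ h => ⟨(hB.ff ξ (root_or.1 h)).2.1, (hB.ff ξ (root_or.1 h)).1.2⟩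
  gal := fun ξ ξ' h h' hn => gal_of_bc hB (root_or.1 h) (root_or.1 h') hn
  minor := fun ξ η h h' => min_of_bc hB h h' (fm_cop hB.cop (hB.ne_of h h'))

variable {R : Type} [CommRing R] [IsDomain R] [IsIntegrallyClosed R] [IsNoetherianRing R]
  [Algebra R k] [IsFractionRing R k]

/-- The roots of `b (a² - 4 b)` are among the `ρ_i / D`. -/
def RootsIn {R k : Type} [CommRing R] [Field k] [Algebra R k] (D : R) {μ : ℕ} (ρ : Fin μ → R)
    (a b : k[X]) : Prop :=
  ∀ ξ : k, (b * (a ^ 2 - 4 * b)).IsRoot ξ → ∃ i, algebraMap R k (ρ i) = algebraMap R k D * ξ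

theorem good_pair {n μ : ℕ} {a b : k[X]} (hB : Base a b) (h5 : 5 ≤ n) (h2 : ¬ 2 ∣ n)
    (hR2 : (2 : R) ≠ 0) {D : R} (hD : D ≠ 0) {ρ : Fin μ → R} (hρ : RootsIn D ρ a b)
    {z : Pairs n R} (h : ∀ s : Ib μ, ∃ p ∈ Zq R (16 * n + 16) (dsc D ρ),
      (fun j => Ideal.Quotient.mk p (toV z j)) ∈ Gb n D ρ s p) :
    Criterion n a b (poly k z.1) (poly k z.2) := by
  have hne : b * (a ^ 2 - 4 * b) ≠ 0 := mul_ne_zero hB.sb.ne_zero hB.sd.ne_zero
  refine crit_of_BC (bc_of h5 h2 hD h
    (Pool.Agent.X243.Tate.bF_map (algebraMap R k) z.1).symm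
    (Pool.Agent.X243.Tate.bF_map (algebraMap R k) z.2).symm ?_ hB.da hB.db hB.dd hB.sb hB.sd
    hB.cop (hB.spl.of_dvd hne (dvd_mul_right _ _)) (hB.spl.of_dvd hne (dvd_mul_left _ _))
    (fun ξ hξ => hρ ξ (root_or.2 hξ)))
  rw [← map_ofNat (algebraMap R k) 2]
  exact (map_ne_zero_iff _ (IsFractionRing.injective R k)).2 hR2

end good

section density

variable (R k : Type) [CommRing R] [IsDomain R] [IsIntegrallyClosed R] [Algebra.FiniteType ℤ R]
  [Field k] [Algebra R k] [IsFractionRing R k]

variable {R k}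

omit [IsIntegrallyClosed R] [Algebra.FiniteType ℤ R] in
/-- A common denominator of the roots. -/
theorem exists_roots {a b : k[X]} (hne : b * (a ^ 2 - 4 * b) ≠ 0) :
    ∃ (D : R) (μ : ℕ) (ρ : Fin μ → R), D ≠ 0 ∧ RootsIn D ρ a b := by
  obtain ⟨D, hD⟩ := IsLocalization.exist_integer_multiples_of_finset (nonZeroDivisors R)
    ((b * (a ^ 2 - 4 * b)).roots.toFinset)
  have hD0 : (D : R) ≠ 0 := nonZeroDivisors.ne_zero D.2
  obtain ⟨m, e⟩ : ∃ m, m = ((b * (a ^ 2 - 4 * b)).roots.toFinset).card := ⟨_, rfl⟩
  let φ : Fin m ≃ {x // x ∈ (b * (a ^ 2 - 4 * b)).roots.toFinset} :=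
    (finCongr e).trans ((b * (a ^ 2 - 4 * b)).roots.toFinset).equivFin.symm
  have hint : ∀ i : Fin m, ∃ c : R, algebraMap R k c = algebraMap R k (D : R) * (φ i).1 := by
    intro i
    obtain ⟨c, hc⟩ := hD (φ i).1 (φ i).2
    refine ⟨c, hc.trans ?_⟩
    rw [Algebra.smul_def]
  choose ρ hρ using hint
  refine ⟨D, m, ρ, hD0, fun ξ hξ => ?_⟩
  have hmem : ξ ∈ (b * (a ^ 2 - 4 * b)).roots.toFinset := by
    rw [Multiset.mem_toFinset]
    exact (mem_roots hne).2 hξ
  refine ⟨φ.symm ⟨ξ, hmem⟩, ?_⟩
  rw [hρ, Equiv.apply_symm_apply]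

variable (R)

/-- The congruences. -/
theorem dens (hR : ¬ IsField R) (hR2 : (2 : R) ≠ 0) {n : ℕ} (hn : 5 ≤ n) (h2 : ¬ 2 ∣ n)
    {a b : k[X]} (hB : Base a b) (η : ℝ) (hη : 0 < η) :
    ∃ M : Ideal R, Finite (R ⧸ M) ∧
      (1 - η) * (Nat.card (R ⧸ M) : ℝ) ^ (Fintype.card (Fin (n + 1) ⊕ Fin (n + 1))) ≤
        (({x : Fin (n + 1) ⊕ Fin (n + 1) → R ⧸ M | ∀ y : Pairs n R,
          (∀ j, Ideal.Quotient.mk M (toV y j) = x j) →
          Criterion n a b (poly k y.1) (poly k y.2)}.ncard : ℕ) : ℝ) := by
  have : IsNoetherianRing R := Algebra.FiniteType.isNoetherianRing ℤ R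
  obtain ⟨D, μ, ρ, hD, hρ⟩ := exists_roots (R := R)
    (mul_ne_zero hB.sb.ne_zero hB.sd.ne_zero : b * (a ^ 2 - 4 * b) ≠ 0)
  obtain ⟨M, hM, hd⟩ := densB R hR hR2 (μ := μ) (N := n) (by omega) hD ρ η hη
  have := hM
  refine ⟨M, hM, hd.trans ?_⟩
  have h3' : ∀ S T : Set (Fin (n + 1) ⊕ Fin (n + 1) → R ⧸ M), S ⊆ T →
      ((S.ncard : ℕ) : ℝ) ≤ ((T.ncard : ℕ) : ℝ) := fun S T h => by
    exact_mod_cast Set.ncard_le_ncard h (Set.toFinite _)
  apply h3'
  intro x hx y hy
  refine good_pair hB hn h2 hR2 hD hρ (fun s => ?_)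
  obtain ⟨p, hp, hp'⟩ := hx s
  exact ⟨p, hp, hp' (toV y) hy⟩

end density

theorem result :
    (∀ (k : Type) [Field k], (2 : k) ≠ 0 → ∀ n : ℕ, 5 ≤ n → ¬ 2 ∣ n →
      ∀ a b : k[X], Base a b → ∀ q r : k[X], Criterion n a b q r →
        TateAll a b q r ∧ SecAll a b q r) ∧
    (∀ (R k : Type) [CommRing R] [IsDomain R] [IsIntegrallyClosed R] [Algebra.FiniteType ℤ R]
      [Field k] [Algebra R k] [IsFractionRing R k], ¬ IsField R → (2 : R) ≠ 0 →
      ∀ n : ℕ, 5 ≤ n → ¬ 2 ∣ n → ∀ (a b : k[X]), Base a b → Sequences R k n a b) ∧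
    (∀ (k : Type) [Field k], (2310 : k) ≠ 0 →
      Base (6 * (X ^ 2 - 24) : k[X]) (-3 * ((X ^ 2 - 4) * (X ^ 2 - 144)))) := by
  refine ⟨fun k _ h2 n n5 odd a b hB q r h => both_of h2 n5 odd hB h, ?_, fun k _ h => ?_⟩
  swap
  · obtain ⟨h1, h2, h3, h4, h5, h6, h7⟩ := exa h rfl rfl
    exact ⟨h1, h2, h3, h4, h5, h6, h7⟩
  intro R k _ _ _ _ _ _ _ hR hR2 n hn hn2 a b hbase
  have : IsNoetherianRing R := Algebra.FiniteType.isNoetherianRing ℤ R
  have hcard : ∀ (M : Ideal R), (Nat.card (Pairs n (R ⧸ M)) : ℝ) =
      (Nat.card (R ⧸ M) : ℝ) ^ (Fintype.card (Fin (n + 1) ⊕ Fin (n + 1))) := by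
    intro M
    rw [Nat.card_congr (Equiv.ofBijective _ ⟨toV_inj (n := n) (R := R ⧸ M), toV_surj⟩),
      Nat.card_fun, Nat.card_eq_fintype_card (α := Fin (n + 1) ⊕ Fin (n + 1))]
    push_cast
    rfl
  intro B hB heq
  obtain ⟨S, hS⟩ : ∃ S : Set (Fin (n + 1) ⊕ Fin (n + 1) → R),
      S = {x | ∃ z : Pairs n R, toV z = x ∧ Criterion n a b (poly k z.1) (poly k z.2)} :=
    ⟨_, rfl⟩
  have hSmem : ∀ y : Pairs n R, toV y ∈ S ↔ Criterion n a b (poly k y.1) (poly k y.2) := by
    intro y
    rw [hS]
    constructor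
    · rintro ⟨z, hz, hg⟩
      rwa [toV_inj hz] at hg
    · intro hg
      exact ⟨y, rfl, hg⟩
  have key : ∀ η : ℝ, 0 < η → ∃ M : Ideal R, Finite (R ⧸ M) ∧
      (1 - η) * (Nat.card (R ⧸ M) : ℝ) ^ (Fintype.card (Fin (n + 1) ⊕ Fin (n + 1))) ≤
        (({x : Fin (n + 1) ⊕ Fin (n + 1) → R ⧸ M | ∀ y : Fin (n + 1) ⊕ Fin (n + 1) → R,
          (∀ j, Ideal.Quotient.mk M (y j) = x j) → y ∈ S}).ncard : ℝ) := by
    intro η hη
    obtain ⟨M, hM, hd⟩ := dens R hR hR2 hn hn2 hbase η hη
    have := hM
    refine ⟨M, hM, hd.trans ?_⟩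
    have h5 : ∀ S T : Set (Fin (n + 1) ⊕ Fin (n + 1) → R ⧸ M), S ⊆ T →
        ((S.ncard : ℕ) : ℝ) ≤ ((T.ncard : ℕ) : ℝ) := fun S T h => by
      exact_mod_cast Set.ncard_le_ncard h (Set.toFinite _)
    apply h5
    intro x hx y hy
    obtain ⟨z, rfl⟩ := toV_surj y
    rw [hSmem]
    exact hx z hy
  have hinj : Function.Injective (toV (R := R) (n := n)) := toV_inj
  have hc : ∀ (i : ℕ) (P : (Fin (n + 1) ⊕ Fin (n + 1) → R) → Prop) [DecidablePred P]
      (Q : Pairs n R → Prop) [DecidablePred Q], (∀ y, P (toV y) ↔ Q y) →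
      (((B i).map ⟨toV, hinj⟩).filter P).card = ((B i).filter Q).card := by
    intro i P _ Q _ hPQ
    rw [Finset.filter_map, Finset.card_map]
    congr 1
    ext y
    rw [Finset.mem_filter, Finset.mem_filter]
    exact and_congr_right fun _ => hPQ y
  have hlim := Pool.Agent.X243.Gen.tendsto_of_dens S key (fun i => (B i).map ⟨toV, hinj⟩)
    (fun i => (hB i).map) (by
      intro M hM x
      obtain ⟨z, rfl⟩ := toV_surj x
      have h1 := heq M hM z
      rw [hcard] at h1
      refine h1.congr fun i => ?_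
      rw [Finset.card_map, hc i _ (fun y => InClass y z) (fun y => (inClass_iff y z).symm)])
  refine hlim.congr fun i => ?_
  rw [Finset.card_map, hc i _ (fun y => Criterion n a b (poly k y.1) (poly k y.2)) hSmem]

end Pool.Agent.Results.MP_1bad5e_ag.GaloisCriterion
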