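import Pool.Agent.K9h8.Lc.Cor
import Pool.Agent.K9h8.Lc.Cnt
import Pool.Agent.K9h8.Lc.Zl
import Pool.Agent.K9h8.Lc.Lim

/-!
# The Tate conjecture for the Kummer covers of the plane branched along a line and two conics

Let `ℓ` be an odd prime. A vector `x` of `15` coefficients gives a linear form `f₀` and two quadratic forms `f₁`, `f₂`
in three variables (`forms`). If the conics are smooth, and the three curves meet transversally and have no common
point, the Kummer covers `X n : b₀ ^ m = f₀(a)`, `b₁ ^ m = f₁(a)`, `b₂ ^ m = f₂(a)`, `m = ℓ ^ n`, of the plane (complete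
intersections in the weighted projective space with the weights `m, m, m, 1, 2, 2`; Galois covers of degree `m ^ 2`)
are smooth and simply connected surfaces with canonical class `O(2 m - 5)`; they are of general type for `n ≥ 1`, and
their geometric genus is unbounded.

**Theorem.** (1) Let `κ` be a finite field of odd characteristic with `q ≥ 24` elements, `ℓ ∣ q - 1`. At least the
proportion `1 / 1024` of all the vectors `x` over `κ` is good (`Good`): the curves are as above, and for ALL `n` the
primitive part `R` of the zeta function of `X n` is congruent to `((1 + T) ^ 3 (1 + T ^ 2)) ^ ((m - 1) ^ 2)` modulo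
`ℓ`, and there are no Tate classes in the primitive cohomology over the extensions of `κ` of odd degree.

(2) Let `A` be a domain which is finitely generated as a ring and not a field, `2 ℓ ≠ 0` in `A`, and `B i` a sequence
of nonempty finite sets of vectors over `A` which is equidistributed modulo each ideal with finite quotient (for
example boxes of coefficients if `A = ℤ`). Then for 100 percent of the vectors in `B i`, as `i` tends to infinity, the
following holds: for every prime number `r ≠ 0` in `A` there is a homomorphism from `A` onto a finite field of odd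
characteristic different from `r` such that the reduction is good.

Consequences (known facts, not formalised). Let `A` be integrally closed and `k` its field of fractions; each infinite
finitely generated field is such a field. Let `r` be a prime number different from the characteristic of `k`. For 100
percent of the line and conics over `A`, and ALL `n`, the surface `X n` over `k` has good reduction at a maximal ideal
whose residue characteristic is different from `r` and where the Frobenius `φ` has no eigenvector with eigenvalue a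
Tate twist on the primitive part of the `r`-adic cohomology, nor has `φ ^ M` for odd `M`. So the Tate classes in
`H²(X n, ℚ_r(1))` over `k` and over ALL finite extensions `k'` of `k` of odd degree are the multiples of the class of
the hyperplane section: the Tate conjecture for divisors. (If the degree of `k'` is odd, `φ` acts on the conjugates of
`k'` and has an orbit of odd length `M`, so that a conjugate of `φ ^ M` fixes `k'`.) The same holds for the members of
the towers over finite fields. One reduction is good for all the surfaces `X n` of a tower.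

Proof. The zeta functions of the strata of the arrangement determine the zeta functions of the Kummer covers modulo
`ℓ` (`Pool.Agent.K9h8.Kum.Full`). If the three intersections are closed points of degree `2`, `2`, `4`, this gives the
congruence, and `X ^ M - 1` is prime to `(1 + X) ^ 3 (1 + X ^ 2)` modulo `ℓ` if `M` is odd. To count these triples a
smooth conic is moved to `y ^ 2 = x z`; the second conic is a member of the pencil spanned by it and a conic that
cuts out an irreducible quartic polynomial on the parameter line of the first one, and the discriminant of its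
restriction to the line is a quadratic polynomial in the parameter of the pencil with nonsquare leading coefficient.
There are infinitely many maximal ideals of `A` whose residue fields contain the `ℓ`-th roots of unity (Chevalley's
theorem; primes in the progression `1` modulo `ℓ`), also outside a given residue characteristic, and the sieve
`Pool.Agent.X243.Gen.densityG` gives (2).
-/

set_option autoImplicit false
set_option linter.all false

namespace Pool.Agent.Results.MP_1bad5e_ag.LineAndTwoConics

open Polynomial Pool.Agent.K9h8.Kum Filter Topology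
open scoped LinearAlgebra.Projectivization Classical

/-- The linear form and the two quadratic forms in three variables with the coefficients `x`. -/
noncomputable def forms {F : Type} [CommRing F] (x : Fin 15 → F) : Fin 3 → MvPolynomial (Fin 3) F :=
  ![MvPolynomial.C (x 0) * MvPolynomial.X 0 + MvPolynomial.C (x 1) * MvPolynomial.X 1 +
      MvPolynomial.C (x 2) * MvPolynomial.X 2,
    MvPolynomial.C (x 3) * MvPolynomial.X 0 ^ 2 +
      MvPolynomial.C (x 4) * (MvPolynomial.X 0 * MvPolynomial.X 1) +
      MvPolynomial.C (x 5) * (MvPolynomial.X 0 * MvPolynomial.X 2) +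
      MvPolynomial.C (x 6) * MvPolynomial.X 1 ^ 2 +
      MvPolynomial.C (x 7) * (MvPolynomial.X 1 * MvPolynomial.X 2) +
      MvPolynomial.C (x 8) * MvPolynomial.X 2 ^ 2,
    MvPolynomial.C (x 9) * MvPolynomial.X 0 ^ 2 +
      MvPolynomial.C (x 10) * (MvPolynomial.X 0 * MvPolynomial.X 1) +
      MvPolynomial.C (x 11) * (MvPolynomial.X 0 * MvPolynomial.X 2) +
      MvPolynomial.C (x 12) * MvPolynomial.X 1 ^ 2 +
      MvPolynomial.C (x 13) * (MvPolynomial.X 1 * MvPolynomial.X 2) +
      MvPolynomial.C (x 14) * MvPolynomial.X 2 ^ 2]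

/-- The discriminants of the two quadratic forms (half of the determinants of the polar forms). -/
def disc {F : Type} [CommRing F] (x : Fin 15 → F) : Fin 2 → F :=
  ![4 * (x 3 * x 6 * x 8) + x 4 * x 5 * x 7 - x 3 * x 7 ^ 2 - x 6 * x 5 ^ 2 - x 8 * x 4 ^ 2,
    4 * (x 9 * x 12 * x 14) + x 10 * x 11 * x 13 - x 9 * x 13 ^ 2 - x 12 * x 11 ^ 2 - x 14 * x 10 ^ 2]

/-- The good coefficient vectors over a finite field `κ`: the two conics are smooth, the line and the conics meet
transversally and have no common point, and for ALL `n` the primitive part `R` of the zeta function of the Kummer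
cover `X n : b₀ ^ m = f₀(a)`, `b₁ ^ m = f₁(a)`, `b₂ ^ m = f₂(a)`, `m = ℓ ^ n`, of the plane is congruent to
`((1 + T) ³ (1 + T ²)) ^ ((m - 1) ²)` modulo `ℓ`, and there are no Tate classes in the primitive cohomology over all
the extensions of `κ` of odd degree. -/
structure Good (ℓ : ℕ) (κ : Type) [Field κ] [Fintype κ] (x : Fin 15 → κ) : Prop where
  smooth : ∀ i, disc x i ≠ 0
  transversal : ∀ (K : Type) [Field K] [Algebra κ K] [IsAlgClosed K],
    (zeros K (forms x 0) ∩ zeros K (forms x 1)).ncard = 2 ∧
    (zeros K (forms x 0) ∩ zeros K (forms x 2)).ncard = 2 ∧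
    (zeros K (forms x 1) ∩ zeros K (forms x 2)).ncard = 4 ∧
    zeros K (forms x 0) ∩ (zeros K (forms x 1) ∩ zeros K (forms x 2)) = ∅
  tate : ∀ (K : Type) [Field K] [Algebra κ K] [IsAlgClosed K] (n : ℕ) (R : ℤ[X]),
    IsPrimitivePart (Fintype.card κ) (nOrb (frobX κ K (forms x) (ℓ ^ n) ![1, 2, 2]) Set.univ) R →
      R.map (Int.castRingHom (ZMod ℓ)) = ((1 + X) ^ 3 * (1 + X ^ 2)) ^ ((ℓ ^ n - 1) ^ 2) ∧
      ∀ M : ℕ, Odd M → NoTate (Fintype.card κ) R M

/-- For every prime number `r ≠ 0` in `A` there is a homomorphism from `A` onto a finite field `κ` of odd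
characteristic different from `r` that contains the `ℓ`-th roots of unity, such that the reduction of `y` is good. -/
def GoodReductions (ℓ : ℕ) {A : Type} [CommRing A] (y : Fin 15 → A) : Prop :=
  ∀ r : ℕ, r.Prime → (r : A) ≠ 0 → ∃ (κ : Type) (_ : Field κ) (_ : Fintype κ) (φ : A →+* κ),
    Function.Surjective φ ∧ (2 : κ) ≠ 0 ∧ (r : κ) ≠ 0 ∧ ℓ ∣ Fintype.card κ - 1 ∧
      Good ℓ κ (fun j => φ (y j))

/-- A sequence of finite sets of vectors which is equidistributed modulo each ideal with finite quotient. -/
def Equidistributed {A : Type} [CommRing A] (B : ℕ → Finset (Fin 15 → A)) : Prop :=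
  ∀ M : Ideal A, Finite (A ⧸ M) → ∀ z : Fin 15 → A ⧸ M,
    Tendsto (fun i => (((B i).filter (fun y => ∀ j, Ideal.Quotient.mk M (y j) = z j)).card : ℝ) /
      ((B i).card : ℝ)) atTop (𝓝 (1 / (Nat.card (A ⧸ M) : ℝ) ^ 15))

open Pool.Agent.K9h8.Lc in
theorem good_of {ℓ : ℕ} (hℓ : ℓ.Prime) (h2 : ℓ ≠ 2) {κ : Type} [Field κ] [Fintype κ]
    (hd : ℓ ∣ Fintype.card κ - 1) {x : Fin 15 → κ} (hx : Gd κ x) : Good ℓ κ x := by
  have : Fact ℓ.Prime := ⟨hℓ⟩
  have hℓd : (ℓ : ℤ) ∣ (Fintype.card κ : ℤ) - 1 := by
    have h3 : 1 ≤ Fintype.card κ := Fintype.card_pos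
    have h4 : ((Fintype.card κ - 1 : ℕ) : ℤ) = (Fintype.card κ : ℤ) - 1 := by
      rw [Nat.cast_sub h3, Nat.cast_one]
    rw [← h4]
    exact_mod_cast hd
  obtain ⟨h3, h4, h5⟩ := hx
  refine ⟨?_, ?_, ?_⟩
  · intro i
    fin_cases i
    · exact h3
    · exact h4
  · intro K _ _ _
    obtain ⟨e1, e2, e3⟩ := (h5 K).cards
    exact ⟨e1, e2, e3, (h5 K).no_triple⟩
  · intro K _ _ _ n R hR
    exact ⟨(h5 K).zeta h2 hℓd n hR, fun M hM => (h5 K).noTate h2 hℓd n hR hM⟩

/-- **Theorem.** -/
theorem result (ℓ : ℕ) (hℓ : ℓ.Prime) (h2 : ℓ ≠ 2) :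
    -- (1) finite fields
    (∀ (κ : Type) [Field κ] [Fintype κ], (2 : κ) ≠ 0 → 24 ≤ Fintype.card κ → ℓ ∣ Fintype.card κ - 1 →
      Fintype.card κ ^ 15 ≤ 1024 * {x : Fin 15 → κ | Good ℓ κ x}.ncard) ∧
    -- (2) infinite finitely generated fields
    (∀ (A : Type) [CommRing A] [IsDomain A] [Algebra.FiniteType ℤ A], ¬ IsField A → (2 : A) ≠ 0 →
      (ℓ : A) ≠ 0 → ∀ B : ℕ → Finset (Fin 15 → A), (∀ i, (B i).Nonempty) → Equidistributed B →
        Tendsto (fun i => (((B i).filter (fun y => GoodReductions ℓ y)).card : ℝ) / ((B i).card : ℝ))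
          atTop (𝓝 1)) := by
  constructor
  · intro κ _ _ h2κ hq hd
    refine (Pool.Agent.K9h8.Lc.card_good h2κ hq).trans (Nat.mul_le_mul_left _ ?_)
    exact Set.ncard_le_ncard (fun x hx => good_of hℓ h2 hd hx) (Set.toFinite _)
  · intro R _ _ _ hR h2R hℓR B hB heq
    obtain ⟨Z, hZinf, hZsub, hZ⟩ := Pool.Agent.K9h8.Lc.two_sets R hR h2R hℓ hℓR 24
    -- the good classes
    obtain ⟨G, hG⟩ : ∃ G : ∀ p : Ideal R, Set (Fin 15 → R ⧸ p), ∀ p, G p =
        {x | ∃ (κ : Type) (_ : Field κ) (_ : Fintype κ) (e : (R ⧸ p) ≃+* κ),
          Pool.Agent.K9h8.Lc.Gd κ (fun j => e (x j))} := ⟨_, fun p => rfl⟩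
    have hGc : ∀ s, ∀ p ∈ Z s, (1 / 1024 : ℝ) * (Nat.card (R ⧸ p) : ℝ) ^ (Fintype.card (Fin 15)) ≤
        ((G p).ncard : ℝ) := by
      intro s p hp
      have hp' := hZsub s hp
      haveI := hp'.1
      letI : Field (R ⧸ p) := Ideal.Quotient.field p
      haveI : Finite (R ⧸ p) := hp'.2.1
      letI := Fintype.ofFinite (R ⧸ p)
      have h2p : (2 : R ⧸ p) ≠ 0 := by
        rw [← map_ofNat (Ideal.Quotient.mk p) 2, Ne, Ideal.Quotient.eq_zero_iff_mem]
        exact hp'.2.2.2.1
      have h5 := Pool.Agent.K9h8.Lc.card_good h2p (by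
        have := hp'.2.2.1
        rwa [Nat.card_eq_fintype_card] at this)
      have h6 : {x : Fin 15 → R ⧸ p | Pool.Agent.K9h8.Lc.Gd (R ⧸ p) x} ⊆ G p := by
        intro x hx
        rw [hG]
        exact ⟨R ⧸ p, inferInstance, inferInstance, RingEquiv.refl _, hx⟩
      have h7 := Set.ncard_le_ncard h6 (Set.toFinite _)
      rw [Fintype.card_fin, Nat.card_eq_fintype_card, one_div, inv_mul_le_iff₀ (by norm_num)]
      have h8 : Fintype.card (R ⧸ p) ^ 15 ≤ 1024 * (G p).ncard := h5.trans (Nat.mul_le_mul_left _ h7)
      exact_mod_cast h8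
    -- the two events
    obtain ⟨S, hS⟩ : ∃ S : Bool → Set (Fin 15 → R), ∀ s, S s =
        {y | ∃ p ∈ Z s, (fun j => Ideal.Quotient.mk p (y j)) ∈ G p} := ⟨_, fun s => rfl⟩
    have dens : ∀ s, ∀ η : ℝ, 0 < η → ∃ M : Ideal R, Finite (R ⧸ M) ∧
        (1 - η) * (Nat.card (R ⧸ M) : ℝ) ^ (Fintype.card (Fin 15)) ≤
        (({x : Fin 15 → R ⧸ M | ∀ y : Fin 15 → R,
          (∀ j, Ideal.Quotient.mk M (y j) = x j) → y ∈ S s}).ncard : ℝ) := by
      intro s η hη
      obtain ⟨M, hM, hd⟩ := Pool.Agent.X243.Gen.densityG (σ := Unit) (Z s) (hZinf s)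
        (fun p hp => (hZsub s hp).1) (fun p hp => (hZsub s hp).2.1)
        (fun _ p => G p) (c := 1 / 1024) (by norm_num) (fun _ p hp => hGc s p hp) η hη
      have := hM
      refine ⟨M, hM, hd.trans ?_⟩
      have h3 : ∀ S T : Set (Fin 15 → R ⧸ M), S ⊆ T →
          ((S.ncard : ℕ) : ℝ) ≤ ((T.ncard : ℕ) : ℝ) := fun S T h => by
        exact_mod_cast Set.ncard_le_ncard h (Set.toFinite _)
      apply h3
      intro x hx y hy
      obtain ⟨p, hp, hp'⟩ := hx ()
      rw [hS]
      exact ⟨p, hp, hp' y hy⟩
    have hlim : ∀ s, Tendsto (fun i => (((B i).filter (fun y => y ∈ S s)).card : ℝ) /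
        ((B i).card : ℝ)) atTop (𝓝 1) := by
      intro s
      exact Pool.Agent.K9h8.Lc.tendsto_of_dens' (S s) (dens s) B hB (by
        intro M hM x
        rw [Fintype.card_fin]
        convert heq M hM x)
    -- good reductions
    have hgood : ∀ y : Fin 15 → R, y ∈ S false → y ∈ S true → GoodReductions ℓ y := by
      intro y h0 h1 r hr hr0
      rw [hS] at h0 h1
      obtain ⟨p, hp, hp'⟩ := h0
      obtain ⟨q, hq, hq'⟩ := h1
      have red : ∀ s, ∀ p ∈ Z s, (fun j => Ideal.Quotient.mk p (y j)) ∈ G p → (r : R) ∉ p →
          ∃ (κ : Type) (_ : Field κ) (_ : Fintype κ) (φ : R →+* κ),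
            Function.Surjective φ ∧ (2 : κ) ≠ 0 ∧ (r : κ) ≠ 0 ∧ ℓ ∣ Fintype.card κ - 1 ∧
              Good ℓ κ (fun j => φ (y j)) := by
        intro s p hp hp' hrp
        have hpz := hZsub s hp
        rw [hG] at hp'
        obtain ⟨κ, i1, i2, e, hgd⟩ := hp'
        have hcard : Fintype.card κ = Nat.card (R ⧸ p) := by
          rw [← Nat.card_eq_fintype_card]
          exact (Nat.card_congr e.toEquiv).symm
        have hd : ℓ ∣ Fintype.card κ - 1 := by
          rw [hcard]
          exact hpz.2.2.2.2
        refine ⟨κ, i1, i2, (e : (R ⧸ p) →+* κ).comp (Ideal.Quotient.mk p), ?_, ?_, ?_, hd,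
          good_of hℓ h2 hd hgd⟩
        · exact e.surjective.comp Ideal.Quotient.mk_surjective
        · intro h
          apply hpz.2.2.2.1
          rw [← Ideal.Quotient.eq_zero_iff_mem, map_ofNat]
          apply e.injective
          rw [map_ofNat, map_zero]
          exact h
        · intro h
          apply hrp
          rw [← Ideal.Quotient.eq_zero_iff_mem, map_natCast]
          apply e.injective
          rw [map_natCast, map_zero]
          exact h
      by_cases hrp : (r : R) ∈ p
      · exact red true q hq hq' (hZ p hp q hq r hr hr0 hrp)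
      · exact red false p hp hp' hrp
    have hpos : ∀ n, (0 : ℝ) < ((B n).card : ℝ) := fun n => by exact_mod_cast (hB n).card_pos
    have hsum : Tendsto (fun i => (((B i).filter (fun y => y ∈ S false)).card : ℝ) /
        ((B i).card : ℝ) + (((B i).filter (fun y => y ∈ S true)).card : ℝ) /
        ((B i).card : ℝ) - 1) atTop (𝓝 1) := by
      have h1 := ((hlim false).add (hlim true)).sub_const 1
      norm_num at h1
      exact h1
    refine tendsto_of_tendsto_of_tendsto_of_le_of_le hsum tendsto_const_nhds (fun i => ?_)
      (fun i => ?_)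
    · show (((B i).filter (fun y => y ∈ S false)).card : ℝ) /
        ((B i).card : ℝ) + (((B i).filter (fun y => y ∈ S true)).card : ℝ) /
        ((B i).card : ℝ) - 1 ≤ _
      rw [← add_div, div_sub_one (hpos i).ne']
      refine div_le_div_of_nonneg_right ?_ (hpos i).le
      have h1 := Finset.card_union_add_card_inter ((B i).filter (fun y => y ∈ S false))
        ((B i).filter (fun y => y ∈ S true))
      have h3 : ((B i).filter (fun y => y ∈ S false) ∪
          (B i).filter (fun y => y ∈ S true)).card ≤ (B i).card :=
        Finset.card_le_card (Finset.union_subset (Finset.filter_subset _ _)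
          (Finset.filter_subset _ _))
      have h4 : ((B i).filter (fun y => y ∈ S false) ∩
          (B i).filter (fun y => y ∈ S true)).card ≤
          ((B i).filter (fun y => GoodReductions ℓ y)).card := by
        refine Finset.card_le_card ?_
        intro y hy
        rw [Finset.mem_inter, Finset.mem_filter, Finset.mem_filter] at hy
        rw [Finset.mem_filter]
        exact ⟨hy.1.1, hgood y hy.1.2 hy.2.2⟩
      have h5 : (((B i).filter (fun y => y ∈ S false)).card +
          ((B i).filter (fun y => y ∈ S true)).card : ℕ) ≤ (B i).card +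
          ((B i).filter (fun y => GoodReductions ℓ y)).card := by omega
      have h6 : ((((B i).filter (fun y => y ∈ S false)).card : ℝ) +
          ((B i).filter (fun y => y ∈ S true)).card) ≤ (B i).card +
          ((B i).filter (fun y => GoodReductions ℓ y)).card := by
        exact_mod_cast h5
      linarith
    · show _ ≤ (1 : ℝ)
      rw [div_le_one (hpos i)]
      exact_mod_cast Finset.card_filter_le _ _

end Pool.Agent.Results.MP_1bad5e_ag.LineAndTwoConics
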